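import Pool.Agent.Helper31.TW.Fin
import Pool.Agent.Helper45.TW.M_PKD
import Pool.Agent.Helper55.TW.M_PKL
import Pool.Agent.Helper78.TW.M_PKR
import Pool.Agent.Helper73.TW.M_DUB
import Pool.Agent.Helper62.TW.M_PKI
import Pool.Agent.Helper16.TW.M_PKH
import Pool.Agent.Helper75.TW.M_PKS
import Pool.Agent.Helper80.TW.M_STR
import Pool.Agent.Helper95.TW.M_DCK
import Pool.Agent.Helper95.TW.M_PEN
import Pool.Agent.Helper76.TW.M_CUT
import Pool.Agent.Helper66.TW.M_SUF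
import Pool.Agent.Helper61.TW.M_EV1
import Pool.Agent.Helper3.TW.M_EV2
import Pool.Agent.Helper25.TW.M_GVE
import Pool.Agent.Helper34.TW.M_NEA
import Pool.Agent.Helper19.TW.M_F1
import Pool.Agent.Helper19.TW.M_GNR
import Pool.Agent.Helper53.TW.M_SH2
import Pool.Agent.Helper97.TW.M_CHO
import Pool.Agent.Helper14.TW.M_CLA
import Pool.Agent.Helper85.TW.M_ACT
import Pool.Agent.Helper70.TW.M_CS1
import Pool.Agent.Helper70.TW.M_SEQ
import Pool.Agent.Helper4.TW.M_CS2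
import Pool.Agent.Helper27.TW.M_CST
import Pool.Agent.Helper46.TW.M_DST
import Pool.Agent.Helper90.TW.M_NME
import Pool.Agent.Helper36.TW.M_LQE
import Pool.Agent.Helper79.TW.M_NRM
import Pool.Agent.Helper22.TW.M_NQE
import Pool.Agent.Helper8.TW.M_COR
import Pool.Agent.Helper60.TW.M_SLS
import Pool.Agent.Helper7.TW.M_TRN
import Pool.Agent.Helper1.TW.M_GEO
import Pool.Agent.Helper40.TW.M_CRP
import Pool.Agent.Helper87.TW.M_ASM
import Pool.Agent.Helper33.TW.M_IND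
import Pool.Agent.Helper58.TW.M_FUN
import Pool.Agent.Helper39.TW.M_LIM
import Pool.Agent.Helper98.TW.M_NCC
import Pool.Agent.Helper55.TW.M_REG

set_option autoImplicit false

/-!
Project TW (MP_434a84_lc): the modules put together.
-/

namespace Pool.Agent.Helper31.TW

open Pool.Agent.Helper22.FL Pool.Agent.Helper22.CS Pool.Agent.Helper15.TS

theorem pPKR : StPKR := Helper78.TW.hPKR Helper45.TW.hPKD Helper55.TW.hPKL Helper73.TW.hDUB

theorem pPKH : StPKH := Helper16.TW.hPKH Helper73.TW.hDUB pPKR Helper62.TW.hPKI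

theorem pPKS : StPKS := Helper75.TW.hPKS pPKH

theorem pSTR : StSTR := Helper80.TW.hSTR pPKH

theorem pSUF : StSUF := Helper66.TW.hSUF Helper95.TW.hDCK Helper76.TW.hCUT

theorem pEV1 : StEV1 := Helper61.TW.hEV1

theorem pEV2 : StEV2 := Helper3.TW.hEV2 pEV1

theorem pGVE : StGVE := Helper25.TW.hGVE

theorem pNEA : StNEA := Helper34.TW.hNEA

theorem pF1 : StF1 := Helper19.TW.hF1 pEV1

theorem pGNR : StGNR := Helper19.TW.hGNR pGVE pNEA

theorem pSH2 : StSH2 := Helper53.TW.hSH2 pEV1 pF1 pNEA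

theorem pCHO : StCHO := Helper97.TW.hCHO pEV1 pF1 pNEA

theorem pCLA : StCLA := Helper14.TW.hCLA pEV1 pEV2 pCHO

theorem pACT : StACT := Helper85.TW.hACT pEV1 pEV2 pCHO pCLA

theorem pCS1 : StCS1 := Helper70.TW.hCS1 pEV1 pEV2 pCHO pACT pGNR

theorem pSEQ : StSEQ := Helper70.TW.hSEQ

theorem pCS2 : StCS2 := Helper4.TW.hCS2 pEV1 pEV2 pACT pGNR pSH2

theorem pCST : StCST := Helper27.TW.hCST pCS1 pCS2 pACT

theorem pNME : StNME := Helper90.TW.hNME pCST pACT

theorem pNQE : StNQE := Helper22.TW.hNQE Pool.Agent.Helper21.TS.strep Helper36.TW.hLQE Helper79.TW.hNRM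

theorem pSLS : StSLS := Helper60.TW.hSLS

theorem pIND : StIND := Helper33.TW.hIND (Helper87.TW.hASM (Helper1.TW.hGEO Helper95.TW.hPEN) Helper40.TW.hCRP)

theorem pREG : StREG := Helper55.TW.hREG pEV1 pEV2 pGVE pNEA

theorem pDST : StDST := Helper46.TW.hDST pEV1 pEV2 pSH2 pACT pREG pNEA

theorem pLIM : StLIM := Helper39.TW.hLIM pEV1 pGVE pNEA pACT pDST pNME pSEQ

theorem pTRN : StTRN := Helper7.TW.hTRN (Helper8.TW.hCOR pNQE pLIM) pSLS

theorem all {n : ℕ} (L : Language (Fin n))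
    (hL : L.IsContextFree ∨ IsSemilinearSet (parikh '' L)) :
    List.TFAE [(comm L).IsContextFree ∧ ((comm L)ᶜ).IsContextFree,
      ∀ z u v w : List (Fin n), u ≠ [] → v ≠ [] → w ≠ [] →
        (comm L ⊓ threeStar z u v w).IsContextFree ∧ ((comm L)ᶜ ⊓ threeStar z u v w).IsContextFree,
      FinCut (parikh '' L) ∧ FinCut (parikh '' L)ᶜ,
      NonCrossing (parikh '' L)] :=
  fin_tfae pSTR pTRN pIND Helper98.TW.hNCC Helper58.TW.hFUN pSUF pPKS L hL

end Pool.Agent.Helper31.TW
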