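import Mathlib
import Pool.Agent.Helper22.CS.Defs
import Pool.Agent.Helper22.CS.Base
import Pool.Agent.Helper15.TS.Defs

set_option autoImplicit false

/-!
Project TW (MP_434a84_lc): for which languages `L` are the commutative closure `comm(L)` AND its complement
context-free?  Definitions.
-/

namespace Pool.Agent.Helper31.TW

open Pool.Agent.Helper22.CS Pool.Agent.Helper15.TS

variable {n : ℕ}

/-! ### definitions of the final theorem -/

/-- the value of the linear form `α` at `t` -/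
def frm (α : Fin n → ℤ) (t : Fin n → ℕ) : ℤ := ∑ i, α i * (t i : ℤ)

/-- cut sets: all `a + d t` with `t` supported in `I` and `α t ≥ k` for all `(α, k) ∈ A`, where no
vector `t` supported in `I` has negative values under the forms of two different elements of `A`
(half-spaces cut off pairwise disjoint caps of the orthant) -/
def IsCut (C : Set (Fin n → ℕ)) : Prop :=
  ∃ (I : Finset (Fin n)) (a : Fin n → ℕ) (d : ℕ) (A : Finset ((Fin n → ℤ) × ℤ)), 1 ≤ d ∧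
    (∀ p ∈ A, ∀ q ∈ A, p ≠ q → ∀ t : Fin n → ℕ, (∀ i, i ∉ I → t i = 0) →
      ¬ (frm p.1 t < 0 ∧ frm q.1 t < 0)) ∧
    C = {x | ∃ t : Fin n → ℕ, (∀ i, i ∉ I → t i = 0) ∧ (∀ p ∈ A, p.2 ≤ frm p.1 t) ∧
      x = a + d • t}

/-- `S` is a finite union of cut sets -/
def FinCut (S : Set (Fin n → ℕ)) : Prop :=
  ∃ 𝒟 : Set (Set (Fin n → ℕ)), 𝒟.Finite ∧ (∀ C ∈ 𝒟, IsCut C) ∧ S = ⋃₀ 𝒟

/-- `z` cut off at `-K` and `K` -/
def clip (K : ℕ) (z : ℤ) : ℤ := max (-(K : ℤ)) (min (K : ℤ) z)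

/-- the walls `α = 0` and `β = 0` have a common point whose letters are exactly `I` -/
def Cross (I : Finset (Fin n)) (α β : Fin n → ℤ) : Prop :=
  ∃ y : Fin n → ℕ, (∀ i, i ∈ I ↔ 1 ≤ y i) ∧ frm α y = 0 ∧ frm β y = 0

/-- `S` has non-crossing walls: for every set `I` of letters, all values `a` of the other letters
and a suitable modulus `D`, in every residue class membership of the points with large coordinates
in `I` depends only on the cut off values of finitely many forms whose walls do not cross -/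
def NonCrossing (S : Set (Fin n → ℕ)) : Prop :=
  ∀ (I : Finset (Fin n)) (a : Fin n → ℕ), ∃ D : ℕ, 1 ≤ D ∧ ∀ ρ : Fin n → ℕ,
    ∃ (K : ℕ) (E : Finset (Fin n → ℤ)), (∀ α ∈ E, ∀ β ∈ E, α ≠ β → ¬ Cross I α β) ∧
      (∀ α ∈ E, ∀ i, i ∉ I → α i = 0) ∧
      ∀ x x' : Fin n → ℕ, (∀ i, i ∉ I → x i = a i ∧ x' i = a i) →
        (∀ i ∈ I, K ≤ x i ∧ K ≤ x' i ∧ x i % D = ρ i % D ∧ x' i % D = ρ i % D) →
        (∀ α ∈ E, clip K (frm α x) = clip K (frm α x')) → (x ∈ S ↔ x' ∈ S)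

/-! ### auxiliary definitions: slices by three vectors -/

/-- every slice `{k ∈ ℕ^3 : c + k_0 q_0 + k_1 q_1 + k_2 q_2 ∈ S}` (`q_j ≠ 0`) is a finite union of linear
sets whose periods have at most two nonzero coordinates -/
def Str (S : Set (Fin n → ℕ)) : Prop :=
  ∀ (c : Fin n → ℕ) (q : Fin 3 → Fin n → ℕ), (∀ j, q j ≠ 0) →
    ∃ R : Finset ((Fin 3 → ℕ) × Finset (Fin 3 → ℕ)), (∀ r ∈ R, ∀ p ∈ r.2, ∃ j, p j = 0) ∧
      ∀ k : Fin 3 → ℕ, c + ∑ j, k j • q j ∈ S ↔ ∃ r ∈ R, k ∈ lin r.1 r.2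

/-! ### auxiliary definitions: integer vectors -/

/-- the scalar product -/
def dot (α x : Fin n → ℤ) : ℤ := ∑ i, α i * x i

/-- a vector of natural numbers as an integer vector -/
def toZ (x : Fin n → ℕ) : Fin n → ℤ := fun i => (x i : ℤ)

/-- all coordinates are positive -/
def Pos (y : Fin n → ℤ) : Prop := ∀ i, 0 < y i

/-- the property `M` of integer vectors depends only on the cut off values of the forms in `𝓐` -/
def Dep (M : (Fin n → ℤ) → Prop) (𝓐 : Finset (Fin n → ℤ)) (K : ℕ) : Prop :=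
  ∀ x x' : Fin n → ℤ, (∀ α ∈ 𝓐, clip K (dot α x) = clip K (dot α x')) → (M x ↔ M x')

/-- all forms are surjective onto `ℤ`, different forms are not parallel -/
def Nrm (𝓐 : Finset (Fin n → ℤ)) : Prop :=
  (∀ α ∈ 𝓐, ∃ u : Fin n → ℤ, dot α u = 1) ∧
    ∀ α ∈ 𝓐, ∀ β ∈ 𝓐, α ≠ β → ∃ w : Fin n → ℤ, dot α w = 0 ∧ dot β w ≠ 0

/-- the context of the main part: `M` depends on the forms in `𝓐`, and the slices of `M` and of its
complement are as in `Str` -/
structure Ctx (M : (Fin n → ℤ) → Prop) (𝓐 : Finset (Fin n → ℤ)) (K : ℕ) : Prop where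
  dep : Dep M 𝓐 K
  nrm : Nrm 𝓐
  st : Str {t : Fin n → ℕ | M (toZ t)}
  sc : Str {t : Fin n → ℕ | ¬ M (toZ t)}

/-- `M` holds eventually on the ray from `x` in the direction `y` -/
def Ev (M : (Fin n → ℤ) → Prop) (x y : Fin n → ℤ) : Prop :=
  ∃ K : ℕ, ∀ k : ℕ, K ≤ k → M (x + (k : ℤ) • y)

/-- `y` is a positive point of the wall `α = 0` and of no other wall -/
def Gen (𝓐 : Finset (Fin n → ℤ)) (α y : Fin n → ℤ) : Prop :=
  Pos y ∧ dot α y = 0 ∧ ∀ β ∈ 𝓐, β ≠ α → dot β y ≠ 0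

/-- the wall `α` is active at `x`: at a generic point of the wall infinitely many heights have a value
different from the value at the height of `x` -/
def Act (M : (Fin n → ℤ) → Prop) (𝓐 : Finset (Fin n → ℤ)) (α x : Fin n → ℤ) : Prop :=
  ∃ y u : Fin n → ℤ, Gen 𝓐 α y ∧ dot α u = 1 ∧
    ∀ s0 : ℕ, ∃ s : ℤ, (s0 : ℤ) ≤ |s| ∧ ¬ (Ev M (x + s • u) y ↔ Ev M x y)

/-- the values far away on the two sides of the wall `α` are different -/
def Jmp (M : (Fin n → ℤ) → Prop) (𝓐 : Finset (Fin n → ℤ)) (α : Fin n → ℤ) : Prop :=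
  ∃ y u : Fin n → ℤ, Gen 𝓐 α y ∧ dot α u = 1 ∧
    ∀ s0 : ℕ, ∃ s : ℤ, (s0 : ℤ) ≤ s ∧ ¬ (Ev M (s • u) y ↔ Ev M (-(s • u)) y)

/-- `x` has the coordinates `t` at the places of `e` and the coordinates of `a` elsewhere -/
def Emb {m : ℕ} (e : Fin m → Fin n) (a x : Fin n → ℕ) (t : Fin m → ℕ) : Prop :=
  (∀ j, x (e j) = t j) ∧ ∀ i, i ∉ Set.range e → x i = a i

/-- `NonCrossing` for the set of all letters -/
def NCT (S : Set (Fin n → ℕ)) : Prop :=
  ∃ D : ℕ, 1 ≤ D ∧ ∀ ρ : Fin n → ℕ, ∃ (K : ℕ) (E : Finset (Fin n → ℤ)),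
    (∀ α ∈ E, ∀ β ∈ E, α ≠ β → ¬ ∃ y : Fin n → ℤ, Pos y ∧ dot α y = 0 ∧ dot β y = 0) ∧
      ∀ x x' : Fin n → ℕ, (∀ i, K ≤ x i ∧ K ≤ x' i ∧ x i % D = ρ i % D ∧ x' i % D = ρ i % D) →
        (∀ α ∈ E, clip K (frm α x) = clip K (frm α x')) → (x ∈ S ↔ x' ∈ S)

end Pool.Agent.Helper31.TW
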