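import Pool.Agent.Helper31.TW.Defs

set_option autoImplicit false

/-!
PROJECT TW (MP_434a84_lc): statements, part 2 (the main part: rays and walls).

Notation in the proofs: `α·x` is `dot α x`; `V(x, y)` is the truth value `Ev M x y`; `y` is always a positive
vector; the zero set of `y` is `{γ ∈ 𝓐 : γ·y = 0}`; a height of `x` is a value `γ·x`.
-/

namespace Pool.Agent.Helper31.TW

open Pool.Agent.Helper22.CS Pool.Agent.Helper15.TS

/-! ### basic facts -/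

/-- **EV1** (basic facts on `Ev`).
Proof.  For `α ∈ 𝓐` the number `clip K (α·x + k α·y)` is constant for large `k`: it is `clip K (α·x)` if `α·y = 0`, `K` if
`α·y > 0`, `-K` if `α·y < 0`.  So there is `k1` such that `M (x + k y) ↔ M (x + k' y)` for all `k, k' ≥ k1`: this gives
(1) and (2).  (3): for large `k` the cut off values at `x + k y` and at `x' + k y'` agree. -/
def StEV1 : Prop := ∀ (n : ℕ) (M : (Fin n → ℤ) → Prop) (𝓐 : Finset (Fin n → ℤ)) (K : ℕ),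
  Dep M 𝓐 K →
  (∀ x y : Fin n → ℤ, Ev (fun z => ¬ M z) x y ↔ ¬ Ev M x y) ∧
  (∀ x y : Fin n → ℤ, (∀ k0 : ℕ, ∃ k : ℕ, k0 ≤ k ∧ M (x + (k : ℤ) • y)) → Ev M x y) ∧
  (∀ x x' y y' : Fin n → ℤ, (∀ α ∈ 𝓐, Int.sign (dot α y) = Int.sign (dot α y')) →
    (∀ α ∈ 𝓐, dot α y = 0 → dot α x = dot α x') → (Ev M x y ↔ Ev M x' y'))

/-- **EV2** (perturbation; hypothesis EV1).
Proof.  Let `N0 > |α·w|` for all `α ∈ 𝓐`.  For `N ≥ N0` (and every `s`): the sign of `α·(N y + w)` is the sign of `α·y` if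
`α·y ≠ 0`, and the sign of `α·w` otherwise.  Choose `s0` with `|α·x| + K ≤ s0` for all `α ∈ 𝓐` (and `1 ≤ s0`).  For
`s ≥ s0` compare, for large `k`, the cut off values of `α` at `x + s w + k y` and at `x + k (N y + w)`: if
`α·y ≠ 0` both are `K` (or both `-K`); if `α·y = 0`, `α·w ≠ 0`, both are `K` or both `-K` according to the sign of
`α·w`; if both are zero both are `clip K (α·x)`.  The last claim follows: both sides are equivalent to
`Ev M x (N0 y + w)`. -/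
def StEV2 : Prop := ∀ (n : ℕ) (M : (Fin n → ℤ) → Prop) (𝓐 : Finset (Fin n → ℤ)) (K : ℕ),
  Dep M 𝓐 K →
  (∀ y w : Fin n → ℤ, ∃ N0 : ℕ, ∀ N : ℤ, (N0 : ℤ) ≤ N → ∀ x : Fin n → ℤ, ∃ s0 : ℕ,
    ∀ s : ℤ, (s0 : ℤ) ≤ s → (Ev M (x + s • w) y ↔ Ev M x (N • y + w))) ∧
  ∀ x y w : Fin n → ℤ, ∃ s0 : ℕ, ∀ s s' : ℤ, (s0 : ℤ) ≤ s → (s0 : ℤ) ≤ s' →
    (Ev M (x + s • w) y ↔ Ev M (x + s' • w) y)

/-- **GVE** (generic vectors; take `α = 0` for the version without `α`).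
Proof.  Induction on `𝓑`.  Let `w` be good for `𝓑`, let `α·w' = 0`, `β·w' ≠ 0`.  For an integer
`s > ∑_(γ ∈ 𝓑 ∪ {β}) |γ·w|` the vector `w + s w'` is good for `𝓑 ∪ {β}`: if `γ·w' ≠ 0` then `|s γ·w'| > |γ·w|`,
otherwise `γ·(w + s w') = γ·w ≠ 0`. -/
def StGVE : Prop := ∀ (n : ℕ) (α : Fin n → ℤ) (𝓑 : Finset (Fin n → ℤ)),
  (∀ β ∈ 𝓑, ∃ w : Fin n → ℤ, dot α w = 0 ∧ dot β w ≠ 0) →
    ∃ w : Fin n → ℤ, dot α w = 0 ∧ ∀ β ∈ 𝓑, dot β w ≠ 0

/-- **NEA** (positive points near a positive point).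
Proof.  Take `N0 > |w i|`, `N0 > |γ·w|` for all `i` and all `γ ∈ 𝓐`. -/
def StNEA : Prop := ∀ (n : ℕ) (𝓐 : Finset (Fin n → ℤ)) (y w : Fin n → ℤ), Pos y →
  ∃ N0 : ℕ, ∀ N : ℤ, (N0 : ℤ) ≤ N → Pos (N • y + w) ∧
    (∀ γ ∈ 𝓐, dot γ y ≠ 0 → Int.sign (dot γ (N • y + w)) = Int.sign (dot γ y)) ∧
    ∀ γ ∈ 𝓐, dot γ y = 0 → dot γ (N • y + w) = dot γ w

/-- **F1** (the fundamental fact about rays and linear sets; hypothesis EV1).
Proof.  `base = c + ∑ κ_j q_j`, `Y = ∑ l_j q_j`.  There is `K0` with `M (base + k Y)` for `k ≥ K0`.  For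
`k ≥ K1 = max (K0, |κ_j|)` the vector `κ + k l` is in `ℕ^3` and `base + k Y = c + ∑ (κ_j + k l_j) q_j`, so it is in
`lin r.1 r.2` for some `r ∈ R`; the same `r` for infinitely many `k`, with coefficients `t^k` on `r.2`.  By Dickson's
lemma there are two such indices `k < k'` with `t^k ≤ t^(k')` on `r.2` (and `K1 ≤ k`).  `P = {p ∈ r.2 : t^k p < t^(k') p,
p ≠ 0}`, `μ = t^(k') - t^k`, `m = k' - k`, `k0 = k`: `∑_(p∈P) μ_p p = m l`, and
`κ + k l + ∑_(p∈P) t_p p = r.1 + ∑ (t^k + t 1_P)_p p ∈ lin r.1 r.2`: the fourth claim.  Last claim: for `p ∈ P`, `s ∈ ℤ` and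
every natural number `N ≥ |s|` use `t = N μ + s 1_p ≥ 0` (`μ_p ≥ 1`): it says
`M (base + s ∑ p_j q_j + (k + N m) Y)`; so `Ev` by EV1 (2). -/
def StF1 : Prop := ∀ (n : ℕ) (M : (Fin n → ℤ) → Prop) (𝓐 : Finset (Fin n → ℤ)) (K : ℕ),
  Dep M 𝓐 K → ∀ (c : Fin n → ℕ) (q : Fin 3 → Fin n → ℕ)
    (R : Finset ((Fin 3 → ℕ) × Finset (Fin 3 → ℕ))),
    (∀ k : Fin 3 → ℕ, M (toZ (c + ∑ j, k j • q j)) ↔ ∃ r ∈ R, k ∈ lin r.1 r.2) →
    ∀ l : Fin 3 → ℕ, (∀ j, 1 ≤ l j) → ∀ κ : Fin 3 → ℤ,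
      Ev M (toZ c + ∑ j, κ j • toZ (q j)) (∑ j, (l j : ℤ) • toZ (q j)) →
      ∃ r ∈ R, ∃ P : Finset (Fin 3 → ℕ), P ⊆ r.2 ∧ ∃ (μ : (Fin 3 → ℕ) → ℕ) (m k0 : ℕ), 1 ≤ m ∧
        (∀ p ∈ P, 1 ≤ μ p ∧ p ≠ 0) ∧ (∑ p ∈ P, μ p • p = m • l) ∧
        (∀ t : (Fin 3 → ℕ) → ℕ, M (toZ c + ∑ j : Fin 3,
          (κ j + (k0 : ℤ) * (l j : ℤ) + ∑ p ∈ P, (t p : ℤ) * (p j : ℤ)) • toZ (q j))) ∧
        ∀ p ∈ P, ∀ s : ℤ, Ev M (toZ c + ∑ j, κ j • toZ (q j) + s • ∑ j : Fin 3, (p j : ℤ) • toZ (q j))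
          (∑ j, (l j : ℤ) • toZ (q j))

/-- **SH2** (two independent directions at a positive point; hypotheses EV1, F1, NEA).
Proof.  Choose `N` such that `q_0 = N y + w1`, `q_1 = N y + w2`, `q_2 = N y - w1 - w2` are positive (NEA for `w1`, `w2`,
`-w1-w2`; if `n = 0` everything is trivial, take `p = (1, 0, 0)`), as vectors of natural numbers, and
`c = x + m y ≥ 0`.  `Ctx.st` and `Ctx.sc` give `R` for `M` and `R'` for `¬ M` (slice `c, q`); `B` = a bound for all coordinates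
of all periods in `R, R'`.  Given `i, j`: let `κ = (i, j, 0)`, `l = (1, 1, 1)`: `base = c + i q_0 + j q_1 =
x + i w1 + j w2 + (m + N (i + j)) y`, `Y = 3 N y`.  By EV1 (3) `V(base, Y) = V(x + i w1 + j w2, y)`.  If this is
true apply F1 to `M` and `R`, otherwise to `¬ M` and `R'` (EV1 (1); `Dep` holds for `¬ M`).  `P` is not empty (`m l ≠ 0`); take
any `p ∈ P`.  `∑ p_j q_j = N (p_0 + p_1 + p_2) y + (p_0 - p_2) w1 + (p_1 - p_2) w2`; the part along `y` does not change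
`V(., y)` (EV1 (3)). -/
def StSH2 : Prop := ∀ (n : ℕ) (M : (Fin n → ℤ) → Prop) (𝓐 : Finset (Fin n → ℤ)) (K : ℕ),
  Ctx M 𝓐 K → ∀ x y w1 w2 : Fin n → ℤ, Pos y → ∃ B : ℕ, ∀ i j : ℤ, ∃ p : Fin 3 → ℕ,
    (∀ k, p k ≤ B) ∧ (∃ k, p k = 0) ∧ p ≠ 0 ∧ ∀ s : ℤ,
      (Ev M (x + i • w1 + j • w2 +
        s • (((p 0 : ℤ) - (p 2 : ℤ)) • w1 + ((p 1 : ℤ) - (p 2 : ℤ)) • w2)) y ↔
        Ev M (x + i • w1 + j • w2) y)

/-! ### one wall -/

/-- **CHO** (chords; hypotheses EV1, F1, NEA).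
Proof.  Let `A0 ≥ 2` be such that `p = A0 y1 - y2` and `q = A0 y2 - y1` are positive; `α·p = α·q = 0`.
`A0 p + q = (A0^2 - 1) y1`, `p + A0 q = (A0^2 - 1) y2`.  `u' = u + m y2 ≥ 0` for large `m`, `N p - u' ≥ 0`,
`N q - u' ≥ 0` for large `N`.  Slice: `q_0 = u'`, `q_1 = N p - u'`, `q_2 = N q - u'` (natural vectors, not zero, as
`α·q_0 = 1`, `α·q_1 = α·q_2 = -1`), `c = x0 + m' y2 ≥ 0`.  `Ctx` gives `R` for `M`, `R'` for `¬ M`; `B ≥ 1` bounds all
coordinates of all periods; `G = (2 B)!`.  Let `j` be given with the hypothesis (H), `x = x0 + j u`.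
Suppose `V(x, y1)` is true (otherwise argue with `¬ M`, `R'`, EV1 (1)).  Let `κ = (j, 0, 0)`; `base = c + j q_0 =
x + (m' + j m) y2`; `V(base, y1) = V(x, y1)` (EV1 (3): at `y1` only the height of `α` matters, `α·y2 = 0`), and
`V(base, y2) = V(x, y2)` (heights of the `γ` with `γ·y2 = 0`).  Let `l = G (A0 + 1, A0, 1)`:
`Y = ∑ l_j q_j = G (A0 (q_0 + q_1) + (q_0 + q_2)) = G N (A0 p + q) = G N (A0^2 - 1) y1`.  F1 gives `r, P, μ, m1, k0`.
(a) Let `p' ∈ P`, `η = α·(∑ p'_j q_j) = p'_0 - p'_1 - p'_2`.  If `η ≠ 0` then `g = |η| ≤ 2 B` divides `G`; (H) gives `s` with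
`V(x + s g u, y1)` false; but F1 (last claim) gives `V(base + (±s) ∑ p'_j q_j, Y)` true, and with the right
sign the heights of `α` agree: contradiction by EV1 (3).  (b) So `p'_0 = p'_1 + p'_2` for all `p' ∈ P`; some
coordinate is zero and `p' ≠ 0`, so `p' = (a, a, 0)` or `p' = (b, 0, b)`.  As `∑ μ p' = m1 l` has positive
coordinates 1 and 2, both types occur in `P`: `p^1 = (a, a, 0)`, `p^2 = (b, 0, b)`, `1 ≤ a, b ≤ B`, `a ∣ G`, `b ∣ G`;
`∑ p^1_j q_j = a N p`, `∑ p^2_j q_j = b N q`.  (c) F1 (fourth claim): `M (base + k0 Y + t1 a N p + t2 b N q)` for all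
natural numbers `t1, t2`.  Let `Y2 = a b N (p + A0 q) = a b N (A0^2 - 1) y2`.  For every large `k`:
`base + k Y2 = base + k0 Y + t1 a N p + t2 b N q` with `t1 = k b - k0 (G/a) A0 ≥ 0`, `t2 = k a A0 - k0 (G/b) ≥ 0`.
So `V(base, Y2)` is true, hence `V(base, y2)` and `V(x, y2)` are true. -/
def StCHO : Prop := ∀ (n : ℕ) (M : (Fin n → ℤ) → Prop) (𝓐 : Finset (Fin n → ℤ)) (K : ℕ),
  Ctx M 𝓐 K → ∀ α ∈ 𝓐, ∀ y1 y2 u x0 : Fin n → ℤ, Gen 𝓐 α y1 → Pos y2 → dot α y2 = 0 →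
    dot α u = 1 → ∃ G : ℕ, 1 ≤ G ∧ ∀ j : ℤ,
      (∀ g : ℕ, 1 ≤ g → g ∣ G → ∃ s : ℤ,
        ¬ (Ev M (x0 + j • u + (s * (g : ℤ)) • u) y1 ↔ Ev M (x0 + j • u) y1)) →
      (Ev M (x0 + j • u) y2 ↔ Ev M (x0 + j • u) y1)

/-- **CLA** (the pattern of a wall is the same at all its generic points; hypotheses EV1, EV2, CHO).
Proof.  Take `u` with `α·u = 1`.  At a generic point `y` of the wall `V(x, y)` depends only on `α·x` (EV1 (3)):
`V(x, y) = φ_y(α·x)`.  By EV2 (last claim, for `w = u` and `w = -u`) `φ_y(h)` is constant for large `h` and constant for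
large `-h`; write `φ_y(∞)`, `φ_y(-∞)`.  `φ_1 = φ_(y1)` is not constant.  Let `x` be given.
CASE 1: `φ_1(∞) ≠ φ_1(-∞)`.  CHO (from `y1` to `y2`, `x0 = x`, `j = 0`): its hypothesis holds for every `g`, since one of
the two limits is different from `φ_1(α·x)` (take `s` or `-s` large).  So `φ_2(α·x) = φ_1(α·x)`.
CASE 2: `φ_1(∞) = φ_1(-∞) =: v`; some height `h1` has `φ_1(h1) ≠ v`.  CHO (from `y1` to `y2`) with `x0 = x` gives `G`.
(i) If `h = α·x + j` satisfies `h ≡ h1 mod G`, the hypothesis of CHO holds: if `φ_1(h) ≠ v` take `s` large; if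
`φ_1(h) = v` take `s = (h1 - h)/g`.  So `φ_2(h) = φ_1(h)`; with `h → ±∞` in this class: `φ_2(∞) = φ_2(-∞) = v`.
(ii) If `φ_1(α·x) ≠ v`: the hypothesis holds for `j = 0`, so `φ_2(α·x) = φ_1(α·x)`.  (iii) If `φ_1(α·x) = v` and
`φ_2(α·x) ≠ v`: CHO from `y2` to `y1` (`x0 = x`, `j = 0`, `s` large as `φ_2(±∞) = v`) gives
`φ_1(α·x) = φ_2(α·x) ≠ v`, a contradiction.  So `φ_2(α·x) = v`. -/
def StCLA : Prop := ∀ (n : ℕ) (M : (Fin n → ℤ) → Prop) (𝓐 : Finset (Fin n → ℤ)) (K : ℕ),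
  Ctx M 𝓐 K → ∀ α ∈ 𝓐, ∀ y1 y2 x1 x2 : Fin n → ℤ, Gen 𝓐 α y1 → Gen 𝓐 α y2 →
    Ev M x1 y1 → ¬ Ev M x2 y1 → ∀ x : Fin n → ℤ, (Ev M x y1 ↔ Ev M x y2)

/-- **ACT** (facts on active walls; hypotheses EV1, EV2, CHO, CLA).
Proof.  (1) `V(x, y)` at a generic point depends only on `α·x` (EV1 (3)); if `Act` holds with the witness `y, u`
then the pattern at `y` is not constant, so by CLA it is the pattern at every generic `y'`; heights:
`α·(x + s u') = α·x + s`.  (2) the same (heights).  (3) CHO from `y` to `y2` with `x0 = x`, `j = 0`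
(`u` with `α·u = 1`): by (1) infinitely many `s` have `V(x + s u, y) ≠ V(x, y)`; by EV2 (last claim) the values are
constant for large `s` and for large `-s`, so for one of the two signs ALL large `s` have
`V(x ± s u, y) ≠ V(x, y)`, in particular a multiple of `g`.  (4) is the negation of `Act`.  (5) Let `y, u` be the
witness of `Jmp`: for arbitrarily large `s` the values `V(s u, y)` and `V(-s u, y)` are different, so (EV2, last claim) the
limits are different, and one of them is different from `V(x, y)`; heights: `α·(x + s' u) = α·(s u)` for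
`s' = s - α·x`.  (6) (for every generic `y` and `u`): the negation of `Jmp` gives `s0`. -/
def StACT : Prop := ∀ (n : ℕ) (M : (Fin n → ℤ) → Prop) (𝓐 : Finset (Fin n → ℤ)) (K : ℕ),
  Ctx M 𝓐 K → ∀ α ∈ 𝓐,
    (∀ x y' u' : Fin n → ℤ, Act M 𝓐 α x → Gen 𝓐 α y' → dot α u' = 1 →
      ∀ s0 : ℕ, ∃ s : ℤ, (s0 : ℤ) ≤ |s| ∧ ¬ (Ev M (x + s • u') y' ↔ Ev M x y')) ∧
    (∀ x x' : Fin n → ℤ, Act M 𝓐 α x → dot α x' = dot α x → Act M 𝓐 α x') ∧
    (∀ x y y2 : Fin n → ℤ, Act M 𝓐 α x → Gen 𝓐 α y → Pos y2 → dot α y2 = 0 →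
      (Ev M x y2 ↔ Ev M x y)) ∧
    (∀ x y u : Fin n → ℤ, ¬ Act M 𝓐 α x → Gen 𝓐 α y → dot α u = 1 →
      ∃ s0 : ℕ, ∀ s : ℤ, (s0 : ℤ) ≤ |s| → (Ev M (x + s • u) y ↔ Ev M x y)) ∧
    (Jmp M 𝓐 α → ∀ x : Fin n → ℤ, Act M 𝓐 α x) ∧
    (¬ Jmp M 𝓐 α → ∀ y u : Fin n → ℤ, Gen 𝓐 α y → dot α u = 1 →
      ∃ s0 : ℕ, ∀ s : ℤ, (s0 : ℤ) ≤ s → (Ev M (s • u) y ↔ Ev M (-(s • u)) y))

/-- **GNR** (generic points of a wall near a positive point; hypotheses GVE, NEA).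
Proof.  GVE for `α` and `𝓑 = {γ ∈ 𝓐 : γ ≠ α, γ·y0 = 0}` (`Nrm`) gives `w1`; NEA for `y0, w1`. -/
def StGNR : Prop := ∀ (n : ℕ) (𝓐 : Finset (Fin n → ℤ)), Nrm 𝓐 → ∀ α ∈ 𝓐, ∀ y0 : Fin n → ℤ,
  Pos y0 → dot α y0 = 0 → ∃ w1 : Fin n → ℤ, dot α w1 = 0 ∧
    (∀ γ ∈ 𝓐, γ ≠ α → dot γ y0 = 0 → dot γ w1 ≠ 0) ∧
    ∃ N0 : ℕ, ∀ N : ℤ, (N0 : ℤ) ≤ N → Gen 𝓐 α (N • y0 + w1)

/-! ### two walls -/

/-- **CS1** (hypotheses EV1, EV2, CHO, ACT, GNR).
Proof.  Generic points `yα, yβ` of the two walls (GNR).  For ALL `x'`: `Act α x'` (ACT (5)), so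
`V(x', y0) = V(x', yα)` (ACT (3)), a function `φ_α` of `α·x'`; `φ_α(∞) ≠ φ_α(-∞)` (`Jmp`, with CLA-type fact ACT (1), or
choose `yα` to be the witness of `Jmp`: it is generic).  `φ_β` is the pattern of `β` at `yβ`; let `b = β·x`.
Let `ε = 1` or `ε = -1`.  Choose `u` with `β·u = 1` and `ε α·u > 0`: `u = u0 + m w`, `β·u0 = 1`, `β·w = 0`, `α·w ≠ 0` (`Nrm`), `m`
of the right sign and large.  CHO for `β` (`y1 = yβ`, `y2 = y0`, this `u`, `x0 = x`) gives `G`.  For `j` divisible by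
`G` its hypothesis holds: let `g ∣ G`; if `φ_β(b + j + s g) = φ_β(b + j)` for all `s`, then (`s = -j/g`, and shifting `s`)
`φ_β(b + s g) = φ_β(b)` for all `s`, so both limits of `φ_β` are `φ_β(b)`, contradicting `Act β x` (ACT (1), EV2).  So for
`j ∈ G ℤ`: `φ_β(b + j) = V(x + j u, yβ) = V(x + j u, y0) = φ_α(α·x + j α·u)`.  With `j → ∞`:
`φ_β(∞) = φ_α(ε ∞)`.  This for both `ε` contradicts `φ_α(∞) ≠ φ_α(-∞)`. -/
def StCS1 : Prop := ∀ (n : ℕ) (M : (Fin n → ℤ) → Prop) (𝓐 : Finset (Fin n → ℤ)) (K : ℕ),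
  Ctx M 𝓐 K → ∀ α ∈ 𝓐, ∀ β ∈ 𝓐, α ≠ β → ∀ x y0 : Fin n → ℤ, Pos y0 → dot α y0 = 0 →
    dot β y0 = 0 → Jmp M 𝓐 α → Act M 𝓐 β x → False

/-- **CS2** (hypotheses EV1, EV2, ACT, GNR, SH2).
Proof.  GNR for `α, y0`: `w1` (`α·w1 = 0`, `β·w1 ≠ 0`); fix `N` so large that `yα = N y0 + w1` is generic and that
EV2 (first claim) holds for `y0, w1` with this `N` (and all `x`).  `yβ` a generic point of the wall `β` (GNR);
`w2` with `α·w2 = 1`.  Let `f = V(x, y0)`; by ACT (3) `V(x, yα) = V(x, yβ) = f`.  Let `v` be the negation of `f`.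
(a) For all large `s`: `V(x + s w2, yα) = v`: the limits at `±∞` of the pattern of `α` at `yα` are equal (ACT (6), EV2;
heights: EV1 (3)) and one of them is different from `f` (ACT (1)).  (b) SH2 (`x, y0, w1, w2`) gives `B`; `G = C!` with
`C ≥ B`, `C ≥ B |β·w1|`.  Choose `j = G s2` with `V(x + j w2, yα) = v`.  EV2 for `x' = x + j w2`:
`V(x' + s w1, y0) = V(x', N y0 + w1) = v` for all large `s`; choose `i = G s1` large.  So
`V(x + i w1 + j w2, y0) = v`.  SH2 for `i, j` gives `p`; let `g = (p_0 - p_2) w1 + (p_1 - p_2) w2`;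
`V(x + i w1 + j w2 + s g, y0) = v` for all `s`.  `α·g = p_1 - p_2`.  If it is not zero it divides `G`; let
`s = -j/(α·g)`: then `x'' = x + i w1 + j w2 + s g` has `α·x'' = α·x`, so `Act α x''` (ACT (2)) and
`V(x'', y0) = V(x'', yα) = V(x, yα) = f` (ACT (3), EV1 (3)): contradiction.  If `p_1 = p_2`: as some coordinate of
`p ≠ 0` is zero, `p_0 ≠ p_2`; `β·g = (p_0 - p_2) β·w1 ≠ 0` divides `G`; with `s = -(i β·w1 + j β·w2)/(β·g)`
(`G ∣ i, j`) we get `β·x'' = β·x`, `Act β x''`, `V(x'', y0) = V(x'', yβ) = V(x, yβ) = f`: contradiction. -/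
def StCS2 : Prop := ∀ (n : ℕ) (M : (Fin n → ℤ) → Prop) (𝓐 : Finset (Fin n → ℤ)) (K : ℕ),
  Ctx M 𝓐 K → ∀ α ∈ 𝓐, ∀ β ∈ 𝓐, α ≠ β → ∀ x y0 : Fin n → ℤ, Pos y0 → dot α y0 = 0 →
    dot β y0 = 0 → ¬ Jmp M 𝓐 α → ¬ Jmp M 𝓐 β → Act M 𝓐 α x → Act M 𝓐 β x → False

/-- **CST** (hypotheses CS1, CS2, ACT).
Proof.  If `Jmp α` use CS1 (`Act β x`); if `Jmp β` use CS1 with the roles exchanged; otherwise CS2. -/
def StCST : Prop := ∀ (n : ℕ) (M : (Fin n → ℤ) → Prop) (𝓐 : Finset (Fin n → ℤ)) (K : ℕ),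
  Ctx M 𝓐 K → ∀ α ∈ 𝓐, ∀ β ∈ 𝓐, α ≠ β → ∀ x y0 : Fin n → ℤ, Pos y0 → dot α y0 = 0 →
    dot β y0 = 0 → Act M 𝓐 α x → Act M 𝓐 β x → False

/-! ### values far from the walls -/

/-- **REG** (the value is the same in all regions not separated by walls with a jump; hypotheses EV1, EV2,
GVE, NEA).
Proof.  `Sep(y)` = the set of the `γ ∈ 𝓐` with opposite signs at `y` and `y'`.
(0) Reduction to the case (G): for all `γ ≠ γ'` in `𝓐` (ordered pairs) the number `δ·y`, where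
`δ = (γ'·y') γ - (γ·y') γ'`, is not zero.  Indeed `δ` is not the zero form (by `Nrm` there is `w` with
`γ'·w = 0`, `γ·w ≠ 0`, so `δ·w = (γ'·y') (γ·w) ≠ 0`), GVE (with `α = 0`) gives `w` with `δ·w ≠ 0` for all these `δ`, and
`N y + w` with `N` large (NEA; and such that `N δ·y + δ·w ≠ 0`) is positive, has the same signs as `y`, so the same
value (EV1 (3)), and satisfies (G).
(1) Induction on `|Sep(y)|` under (G).  If it is empty use EV1 (3).  Otherwise choose `γ1 ∈ Sep(y)` with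
`|γ1·y| |γ·y'| ≤ |γ·y| |γ1·y'|` for all `γ ∈ Sep(y)` (the first wall on the way from `y` to `y'`; exists since
`Sep(y)` is finite: minimise the fraction `|γ·y|/|γ·y'|`).  For `γ ≠ γ1` in `Sep(y)` the inequality is strict: equality
says `δ·y = 0` for the pair `γ, γ1` (signs are opposite).  `z = |γ1·y'| y + |γ1·y| y'` is positive, `γ1·z = 0`, and
for `γ ≠ γ1` in `𝓐` the number `γ·z` has the sign of `γ·y` (clear if `γ ∉ Sep(y)`; for `γ ∈ Sep(y)` by the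
strict inequality).  So `z` is a generic point of the wall `γ1` (`Gen`).  `γ1` is not a wall with a jump (such
walls are not in `Sep(y)`).  For large `N`: `V(x, N z + y) = V(x, N z + y')`: by EV2 they are `V(x + s y, z)` and
`V(x + s y', z)` for large `s`; with `u`, `γ1·u = 1`, the heights are those of `x + s' u` with `s' = s γ1·y`, resp.
`s γ1·y'`, of opposite signs, so (EV1 (3), EV2) these are the two limits of the pattern at `z`, equal because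
`¬ Jmp` (its negation for this `z, u`).  `N z + y` has the same signs as `y` (EV1 (3)).  `y'' = N z + y'`: the same
signs as `y` except at `γ1`, where it has the sign of `y'`: `Sep(y'') = Sep(y) \ {γ1}`; (G) for `y''`:
`δ·y' = 0`, `δ·y'' = N δ·z = N |γ1·y'| δ·y ≠ 0`; signs at the walls with a jump are unchanged.  Induction. -/
def StREG : Prop := ∀ (n : ℕ) (M : (Fin n → ℤ) → Prop) (𝓐 : Finset (Fin n → ℤ)) (K : ℕ),
  Dep M 𝓐 K → Nrm 𝓐 → ∀ y y' : Fin n → ℤ, Pos y → Pos y' →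
    (∀ γ ∈ 𝓐, dot γ y ≠ 0 ∧ dot γ y' ≠ 0) →
    (∀ γ ∈ 𝓐, Jmp M 𝓐 γ → Int.sign (dot γ y) = Int.sign (dot γ y')) →
    ∀ x x' : Fin n → ℤ, (Ev M x y ↔ Ev M x' y')

/-- **DST** (the value at a point where no wall is active; hypotheses EV1, EV2, SH2, ACT, REG, NEA).
Proof.  Strong induction on the number of the `γ ∈ 𝓐` with `γ·y = 0`.
0: REG for `y` and `z`.  Exactly one, `α`: `Gen 𝓐 α y`; `u` with `α·u = 1`; ACT (4): `V(x + s u, y) = V(x, y)` for large `s`, and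
EV2: it is `V(x, N y + u)`, `N` large (NEA: positive, no zeros, and the signs of `y` except at `α`).  `α` has no jump
(otherwise `Act α x` by ACT (5)), so REG applies to `N y + u` and `z`.  At least two, `α ≠ β`: `w1` with `α·w1 = 0`,
`β·w1 ≠ 0`, `w2` with `α·w2 = 1`; SH2 (`i = j = 0`) gives `p`; `g = (p_0 - p_2) w1 + (p_1 - p_2) w2` and
`V(x + s g, y) = V(x, y)` for all `s`.  `α·g = p_1 - p_2`, and if this is `0` then `p_0 ≠ p_2` (one coordinate of `p ≠ 0`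
is zero) and `β·g ≠ 0`.  EV2: `V(x, y) = V(x, N y + g)`, `N` large.  `y' = N y + g` is positive; its zeros are the `γ` with
`γ·y = 0 = γ·g`: fewer than those of `y`; they are not active at `x`; a wall with a jump is not a zero of `y`
(ACT (5)), so its sign at `y'` is the sign at `y`.  Induction for `y'`. -/
def StDST : Prop := ∀ (n : ℕ) (M : (Fin n → ℤ) → Prop) (𝓐 : Finset (Fin n → ℤ)) (K : ℕ),
  Ctx M 𝓐 K → ∀ x y z : Fin n → ℤ, Pos y → Pos z → (∀ γ ∈ 𝓐, dot γ z ≠ 0) →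
    (∀ γ ∈ 𝓐, dot γ y = 0 → ¬ Act M 𝓐 γ x) →
    (∀ γ ∈ 𝓐, Jmp M 𝓐 γ → Int.sign (dot γ z) = Int.sign (dot γ y)) →
    (Ev M x y ↔ Ev M 0 z)

/-! ### the final description of `M` -/

/-- **NME** (in a residue class active walls do not meet; hypotheses CST, ACT).
Proof.  For `α ≠ β` in `𝓐` choose (`Nrm`) `w_αβ` with `α·w = 0`, `β·w ≠ 0`; `D` = the product of all `|β·w_αβ|` over the
ordered pairs.  Suppose `α ≠ β` violate the claim: `y` positive, `α·y = β·y = 0`, `x1, x2` in the class of `ρ` with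
`Act α x1`, `Act β x2`.  `D` divides all coordinates of `x2 - x1`, so `β·w_αβ` divides `β·(x2 - x1)`; let
`x = x1 + k w_αβ` with `k β·w_αβ = β·(x2 - x1)`.  `α·x = α·x1`, `β·x = β·x2`: by ACT (2) `Act α x` and `Act β x`,
contradicting CST. -/
def StNME : Prop := ∀ (n : ℕ) (M : (Fin n → ℤ) → Prop) (𝓐 : Finset (Fin n → ℤ)) (K : ℕ),
  Ctx M 𝓐 K → ∃ D : ℕ, 1 ≤ D ∧ ∀ ρ : Fin n → ℤ, ∀ α ∈ 𝓐, ∀ β ∈ 𝓐, α ≠ β →
    (∃ x : Fin n → ℤ, (∀ i, (D : ℤ) ∣ x i - ρ i) ∧ Act M 𝓐 α x) →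
    (∃ x : Fin n → ℤ, (∀ i, (D : ℤ) ∣ x i - ρ i) ∧ Act M 𝓐 β x) →
    ¬ ∃ y : Fin n → ℤ, Pos y ∧ dot α y = 0 ∧ dot β y = 0

/-- **SEQ** (subsequences).
Proof.  Induction on the finite set `J` (or on a finite subset of it, for instance
`Finset.induction_on` applied to `Finset.univ`): the three alternatives are kept by passing to a further
subsequence.  One coordinate, `f : ℕ → ℤ`: if some value is taken infinitely often choose these indices.  Otherwise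
for every `B` only finitely many `k` have `|f k| ≤ B`; infinitely many `k` have `f k > 0` or infinitely many have
`f k < 0`; choose the indices recursively with `|f|` increasing (`Nat.exists_strictMono_subsequence` or
similar, `extraction_of_frequently_atTop`). -/
def StSEQ : Prop := ∀ (J : Type) [Fintype J] (f : ℕ → J → ℤ), ∃ g : ℕ → ℕ, StrictMono g ∧
  ∀ j : J, (∀ k, f (g k) j = f (g 0) j) ∨
    (∀ k, 0 < f (g k) j ∧ f (g k) j < f (g (k + 1)) j) ∨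
    ∀ k, f (g k) j < 0 ∧ f (g (k + 1)) j < f (g k) j

/-- **LIM** (compactness; hypotheses EV1, GVE, NEA, ACT, DST, NME, SEQ).
Proof.  `D` from NME.  Given `ρ` let `E` be the set of the `α ∈ 𝓐` with `Act α x` for some `x` in the class of `ρ` modulo `D`;
its walls do not meet (NME).  Suppose that no `K' ≥ 1` works: for every `k` there are `x_k, x'_k` with coordinates
`≥ k + 1`, in the class of `ρ`, with the same values of `clip (k + 1) (α·)` for `α ∈ E`, `M x_k`, `¬ M x'_k`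
(exchange the two points if necessary).  SEQ for the sequences of all coordinates of `x_k` and of `x'_k`
and of all `γ·x_k`, `γ·x'_k` (`γ ∈ 𝓐`): a subsequence `g`.  The coordinates tend to infinity, so they are
increasing.  Let `k` be large (`k ≥ K`), `x = x_(g k)`, `y = x_(g (k+1)) - x`, `x' = x'_(g k)`,
`y' = x'_(g (k+1)) - x'`: `y, y'` are positive.  For `γ ∈ 𝓐`: constant type: `γ·y = 0`; increasing type: `γ·y > 0` and
`γ·x ≥ k + 1 > K`; decreasing type: `γ·y < 0`, `γ·x < -K`.  So `clip K (γ·(x + j y)) = clip K (γ·x)` for all natural `j`,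
hence `V(x, y)` is true; in the same way `V(x', y')` is false (`¬ M` holds on the whole ray).
(a) For `α ∈ E` the sequences `α·x_(g k)` and `α·x'_(g k)` have the same type, and if they are constant they are
equal: if the first is constant `= h`, then for `g k ≥ |h|` the cut off values say `α·x'_(g k) = h`; if the
first is increasing, then `clip (g k + 1) (α·x'_(g k)) = clip (g k + 1) (α·x_(g k)) > 0`, so the second is positive, and it
is not constant by the symmetric argument; etc.  So `α·y`, `α·y'` have the same sign, and `α·x = α·x'` if it is zero.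
(b) If some `α ∈ 𝓐` has `α·y = 0` and `Act α x`: then `α ∈ E`, so `α·y' = 0`, `α·x' = α·x`, `Act α x'`.  With a generic point
`y1` of the wall (it exists by `Act`): `V(x, y) = V(x, y1) = V(x', y1) = V(x', y')` (ACT (3), EV1 (3)), a contradiction.  The
same if some `α` has `α·y' = 0` and `Act α x'`.  (c) Otherwise choose `w` with `γ·w ≠ 0` for all `γ ∈ 𝓐` (GVE with `α = 0`,
`Nrm`) and `z = N y + w` with `N` large (NEA): positive, no zeros, the signs of `y` where `γ·y ≠ 0`.  A wall `γ` with a jump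
is active everywhere (ACT (5)), so it is in `E` and not a zero of `y`, `y'` (case (c)); by (a) its signs at `y, y', z` are
equal.  DST: `V(x, y) = V(0, z) = V(x', y')`: contradiction. -/
def StLIM : Prop := ∀ (n : ℕ) (M : (Fin n → ℤ) → Prop) (𝓐 : Finset (Fin n → ℤ)) (K : ℕ),
  Ctx M 𝓐 K → ∃ D : ℕ, 1 ≤ D ∧ ∀ ρ : Fin n → ℤ, ∃ K' : ℕ, 1 ≤ K' ∧ ∃ E : Finset (Fin n → ℤ),
    (∀ α ∈ E, ∀ β ∈ E, α ≠ β → ¬ ∃ y : Fin n → ℤ, Pos y ∧ dot α y = 0 ∧ dot β y = 0) ∧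
    ∀ x x' : Fin n → ℤ, (∀ i, (K' : ℤ) ≤ x i ∧ (K' : ℤ) ≤ x' i) →
      (∀ i, (D : ℤ) ∣ x i - ρ i ∧ (D : ℤ) ∣ x' i - ρ i) →
      (∀ α ∈ E, clip K' (dot α x) = clip K' (dot α x')) → (M x ↔ M x')

end Pool.Agent.Helper31.TW
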