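import Pool.Agent.Helper31.TW.Defs
import Pool.Agent.Helper15.TS.St

set_option autoImplicit false

/-!
PROJECT TW (MP_434a84_lc): statements, part 3 (semilinear sets, geometry, assembly).
-/

namespace Pool.Agent.Helper31.TW

open Pool.Agent.Helper22.FL Pool.Agent.Helper22.CS Pool.Agent.Helper15.TS

/-! ### semilinear sets as Boolean combinations of half-spaces in residue classes -/

/-- **LQE** (one linear set with independent periods).
Proof.  Extend the independent family `toQ p`, `p ∈ P`, to a basis of `ℚ^n`; the coordinates with respect to it are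
linear functionals `τ_p` (`p ∈ P`) and `ε_j` (the other basis vectors), with rational coefficients; let `D ≥ 1` be a
common denominator, `T_p = D τ_p`, `E_j = D ε_j` integral forms.  For natural `x`: `x ∈ lin c P` iff all
`ε_j (x - c) = 0` (i.e. `x - c` is in the span of `P`) and all `τ_p (x - c)` are natural numbers, i.e. iff
`E_j (x - c) ≥ 0`, `-E_j (x - c) ≥ 0`, `T_p (x - c) ≥ 0` and `D ∣ T_p (x - c)`.  `A` = these inequalities, `𝓒` = the set of
the `x` satisfying the divisibility conditions. -/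
def StLQE : Prop := ∀ (n : ℕ) (c : Fin n → ℕ) (P : Finset (Fin n → ℕ)),
  LinearIndepOn ℚ toQ (P : Set (Fin n → ℕ)) →
  ∃ (D : ℕ) (A : Finset ((Fin n → ℤ) × ℤ)) (𝓒 : Set (Fin n → ℕ)), 1 ≤ D ∧
    (∀ x x' : Fin n → ℕ, (∀ i, x i % D = x' i % D) → (x ∈ 𝓒 ↔ x' ∈ 𝓒)) ∧
    ∀ x : Fin n → ℕ, x ∈ lin c P ↔ x ∈ 𝓒 ∧ ∀ p ∈ A, p.2 ≤ frm p.1 x

/-- **NRM** (normalisation of the forms).
Proof.  Induction on `A`.  Let `𝓐` be good for `A` and `α` a new form, `α ≠ 0`.  `α = g α'` with `g ≥ 1` the gcd of the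
coordinates and `α'` primitive, so `dot α' u = 1` for some `u` (Bezout).  If some `β ∈ 𝓐` has: every `w` with
`β·w = 0` satisfies `α'·w = 0`, or every `w` with `α'·w = 0` satisfies `β·w = 0`: then `α'` is a multiple of `β`
(first case: take `v` with `β·v = 1`; for all `x`, `w = x - (β·x) v` has `β·w = 0`, so
`α'·x = (α'·v) (β·x)`; second case: the same with the roles exchanged, `β = (β·u) α'`, and then
`1 = β·v = (β·u) (α'·v)` gives `β·u = ±1` and `α' = (β·u) β`); keep `𝓐`.  Otherwise add `α'`. -/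
def StNRM : Prop := ∀ (n : ℕ) (A : Finset (Fin n → ℤ)), ∃ 𝓐 : Finset (Fin n → ℤ), Nrm 𝓐 ∧
  ∀ α ∈ A, α = 0 ∨ ∃ β ∈ 𝓐, ∃ g : ℤ, α = g • β

/-- **NQE** (hypotheses StREP of Helper15/TS (proved: `strep`), LQE, NRM).
Proof.  REP: `S = ⋃_(r ∈ R) lin r.1 r.2`; LQE gives `D_r, A_r, 𝓒_r`; `D = ∏ D_r`.  Given `ρ`: for `x = ρ + D t`
membership in `𝓒_r` does not depend on `t` (it is the same as for `ρ`), and `k ≤ α x` means
`k - α ρ ≤ D α t`, i.e. `k' ≤ (D α)·t` with `k' = k - α ρ`.  So `ρ + D t ∈ S` iff for some `r` with `ρ ∈ 𝓒_r`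
all inequalities `k' ≤ (D α)·(toZ t)`, `(α, k) ∈ A_r`, hold: this formula, for all integer vectors, is `M`.  NRM for the
finite set of all the forms `D α` gives `𝓐`; `K = 1 + ∑ |k'|`.  `Dep`: a condition `k' ≤ α'·x` with `α' = g β`,
`|k'| < K` depends only on `clip K (β·x)`: if `|β·x| < K` then `β·x` is determined; otherwise
`|g β·x| ≥ K > |k'|` for `g ≠ 0`, and the truth value is given by the sign of `g β·x`.  `α' = 0` is clear. -/
def StNQE : Prop := ∀ (n : ℕ) (S : Set (Fin n → ℕ)), IsSemilinearSet S → ∃ D : ℕ, 1 ≤ D ∧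
  ∀ ρ : Fin n → ℕ, ∃ (M : (Fin n → ℤ) → Prop) (𝓐 : Finset (Fin n → ℤ)) (K : ℕ), Dep M 𝓐 K ∧
    Nrm 𝓐 ∧ ∀ t : Fin n → ℕ, (ρ + D • t ∈ S ↔ M (toZ t))

/-- the statement proved as LIM in part 2 (`StLIM` of St2, same content) -/
def StLIMa : Prop := ∀ (n : ℕ) (M : (Fin n → ℤ) → Prop) (𝓐 : Finset (Fin n → ℤ)) (K : ℕ),
  Ctx M 𝓐 K → ∃ D : ℕ, 1 ≤ D ∧ ∀ ρ : Fin n → ℤ, ∃ K' : ℕ, 1 ≤ K' ∧ ∃ E : Finset (Fin n → ℤ),
    (∀ α ∈ E, ∀ β ∈ E, α ≠ β → ¬ ∃ y : Fin n → ℤ, Pos y ∧ dot α y = 0 ∧ dot β y = 0) ∧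
    ∀ x x' : Fin n → ℤ, (∀ i, (K' : ℤ) ≤ x i ∧ (K' : ℤ) ≤ x' i) →
      (∀ i, (D : ℤ) ∣ x i - ρ i ∧ (D : ℤ) ∣ x' i - ρ i) →
      (∀ α ∈ E, clip K' (dot α x) = clip K' (dot α x')) → (M x ↔ M x')

/-- **COR** (hypotheses NQE, LIMa).
Proof.  NQE gives `D0`; for every `ρ0` with coordinates `< D0` let `M, 𝓐, K` be as there.  `Ctx M 𝓐 K` holds: slices
of `{t | M (toZ t)}` are slices of `S`: `M (toZ (c + ∑ k_j q_j)) ↔ (ρ0 + D0 c) + ∑ k_j (D0 q_j) ∈ S`, `D0 q_j ≠ 0`; the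
same for the complement.  LIMa gives `D1(ρ0)`.  `D = D0 ∏_(ρ0) D1(ρ0)`.  Let `ρ` be given, `ρ0 = ρ mod D0`, `τ = ρ / D0`
(coordinatewise).  LIMa (for `ρ0` and the class of `τ`) gives `K1, E`.  Let
`K = D0 (K1 + 1) + ∑_(α∈E) |α·ρ0|`.  If `x ≡ ρ mod D`, `x ≥ K`, then `x = ρ0 + D0 t` with `t ≡ τ mod D1(ρ0)`, `t ≥ K1`, and
`α·x = α·ρ0 + D0 α·t`; equal values of `clip K (α·x)` give equal values of `clip K1 (α·t)`: if `|α·x| < K` the
numbers are equal; if `α·x ≥ K` then `α·t ≥ K1`; if `α·x ≤ -K` then `α·t ≤ -K1`. -/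
def StCOR : Prop := ∀ (n : ℕ) (S : Set (Fin n → ℕ)), IsSemilinearSet S → Str S → Str Sᶜ → NCT S

/-- **SLS**.  Proof.  `S ∩ {x | ∀ i ∉ range e, x i = a i}` is semilinear: the second set is
`a' +ᵥ closure {unit vectors at the places of e}` with `a' = a` off the range and `0` on it
(`IsSemilinearSet.inter`); the set in question is its image under the homomorphism `x ↦ x ∘ e`
(`IsSemilinearSet.image`). -/
def StSLS : Prop := ∀ (m n : ℕ) (e : Fin m → Fin n) (a : Fin n → ℕ) (S : Set (Fin n → ℕ)),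
  Function.Injective e → IsSemilinearSet S → IsSemilinearSet {t : Fin m → ℕ | ∃ x ∈ S, Emb e a x t}

/-- **TRN** (hypotheses COR, SLS).
Proof.  Given `I, a` let `m = |I|` and `e : Fin m → Fin n` injective with range `I` (`Finset.orderEmbOfFin`).
`S' = {t | ∃ x ∈ S, Emb e a x t}`; for every `t` there is exactly one `x` with `Emb e a x t`, so the complement of `S'`
is the same set for `Sᶜ`.  `S'` is semilinear (SLS).  `Str S'`: for `c, q` in `ℕ^m` let `c̃` be the vector with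
`Emb e a c̃ c` and `q̃_j` the extension of `q_j` by zero: `Emb e a (c̃ + ∑ k_j q̃_j) (c + ∑ k_j q_j)`; `q̃_j ≠ 0`; the
same for `Sᶜ`.  COR gives `NCT S'`: `D`.  Given `ρ` use `ρ ∘ e`: `K, E'`.  `E` = the extensions by zero of the forms
in `E'`: `frm α̃ x = frm α (x ∘ e)`; `Cross I α̃ β̃` gives a positive `y` with `α·y = β·y = 0` (restrict). -/
def StTRN : Prop := ∀ (n : ℕ) (S : Set (Fin n → ℕ)), IsSemilinearSet S → Str S → Str Sᶜ →
  NonCrossing S

/-! ### geometry of non-crossing walls -/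

/-- **PEN** (two forms).
Proof.  (1) One form: if no positive integer vector `y` has `α·y = 0` then `α ≥ 0, α ≠ 0` or `α ≤ 0, α ≠ 0`
(if `α` has entries of both signs: `P = ∑_(α_i>0) α_i`, `N = ∑_(α_i<0) |α_i|`, `y_i = N` where `α_i > 0`, `y_i = P` where
`α_i < 0`, `y_i = 1` else; if `α = 0` take `y = 1`).  In this case `(λ, μ) = (±1, 0)`.  Otherwise let `y0` be positive with
`α·y0 = 0`; if `α = 0` argue with `β` alone (`(λ, μ) = (0, ±1)` by (1) for `β`).  So let `α` have entries of both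
signs.  (2) Let `g` run through the vectors `e_k` (`α_k = 0`) and `w_ij = α_i e_j + |α_j| e_i` (`α_i > 0 > α_j`); `α·g = 0`.  If
`β·g > 0` for one such `g` and `β·g' < 0` for another: with `b = β·y0` one of `y0` (`b = 0`),
`|β·g'| y0 + b g'` (`b > 0`), `(β·g) y0 + |b| g` (`b < 0`) is a positive common zero of `α, β`: excluded.  So, replacing
`β` by `-β` (and `μ` by `-μ`), all `β·g ≥ 0`.  (3) Then there is a rational `λ'` with `β + λ' α ≥ 0`: any `λ'` with
`-β_i/α_i ≤ λ'` for all `α_i > 0` and `λ' ≤ β_j/|α_j|` for all `α_j < 0` (possible, since `β·w_ij ≥ 0` says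
`-β_i/α_i ≤ β_j/|α_j|`; for instance `λ'` = the maximum of the `-β_i/α_i`); for `α_k = 0`: `β_k ≥ 0`.  Multiply by the
denominator.  The result is not zero: otherwise `μ β = -λ α` with `μ ≠ 0` and `y0` is a common zero. -/
def StPEN : Prop := ∀ (n : ℕ) (α β : Fin n → ℤ),
  (∀ y : Fin n → ℤ, Pos y → ¬ (dot α y = 0 ∧ dot β y = 0)) →
  ∃ a b : ℤ, (∀ i, 0 ≤ a * α i + b * β i) ∧ ∃ i, 0 < a * α i + b * β i

/-- **GEO** (classes of equal cut off values; hypothesis PEN).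
Proof.  `E'` = the forms of `E` with entries of both signs.  For `x ≥ K` on `I` and `α ∈ E \ E'` the number
`clip K (α x)` is constant (`α = 0`: `0`; `α ≥ 0`, `≠ 0`: `K`; `α ≤ 0`, `≠ 0`: `-K`).  For `α ≠ β` in `E'` PEN (a positive
common zero `y` gives `Cross I α β`: put `0` off `I`; the forms vanish off `I`) gives `a, b` with
`ν = a α + b β ≥ 0`, `ν ≠ 0`; `a ≠ 0` and `b ≠ 0` because `α, β` have entries of both signs.  Choose `K2 ≥ K` larger than
all `(|a| + |b|) K`; so (*) `a α x + b β x = ν x > (|a| + |b|) K` for `x ≥ K2` on `I`.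
Let `x0` be given.  CASE 1: some `α ∈ E'` has `|α x0| < K`.  `A = {(α, α x0), (-α, -α x0)}` (caps `α t < 0` and
`-α t < 0` are disjoint).  If `x ≥ K2` and `α x = α x0`, then for every `β ≠ α` in `E'`: `b β x > |b| K` and
`b β x0 > |b| K` by (*), so the cut off values of `β` agree.  CASE 2: all `|α x0| ≥ K`, `σ_α` = sign of `α x0`.  The class of
`x0` is `{x : σ_α α x ≥ K for all α ∈ E'}`.  Let `E_c ⊆ E'` be minimal (by the number of elements) such
that for all `x ≥ K2`: `σ_α α x ≥ K` for all `α ∈ E_c` implies `σ_β β x ≥ K` for all `β ∈ E'`.  `A = {(σ_α α, K) : α ∈ E_c}`.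
Caps: let `α ≠ β` in `E_c`, `a, b` as above.  Signs of `(a, b)`: `(-σ_α, -σ_β)` is impossible by (*) for `x0`.
`(-σ_α, σ_β)`: for `x ≥ K2` with `σ_α α x ≥ K`: `b β x = ν x + |a| σ_α α x > |b| K`, so `σ_β β x ≥ K`: then `E_c \ {β}` has the
property, contradicting minimality; the same for `(σ_α, -σ_β)`.  So the signs are `(σ_α, σ_β)` and for `t ≥ 0` supported in
`I`: `|a| σ_α α t + |b| σ_β β t = ν t ≥ 0`, not both negative. -/
def StGEO : Prop := ∀ (n : ℕ) (I : Finset (Fin n)) (E : Finset (Fin n → ℤ)) (K : ℕ), 1 ≤ K →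
  (∀ α ∈ E, ∀ i, i ∉ I → α i = 0) → (∀ α ∈ E, ∀ β ∈ E, α ≠ β → ¬ Cross I α β) →
  ∃ K2 : ℕ, K ≤ K2 ∧ ∀ x0 : Fin n → ℕ, (∀ i ∈ I, K2 ≤ x0 i) →
    ∃ A : Finset ((Fin n → ℤ) × ℤ), (∀ p ∈ A, ∀ i, i ∉ I → p.1 i = 0) ∧
      (∀ p ∈ A, ∀ q ∈ A, p ≠ q → ∀ t : Fin n → ℕ, (∀ i, i ∉ I → t i = 0) →
        ¬ (frm p.1 t < 0 ∧ frm q.1 t < 0)) ∧
      ∀ x : Fin n → ℕ, (∀ i ∈ I, K2 ≤ x i) →
        ((∀ α ∈ E, clip K (frm α x) = clip K (frm α x0)) ↔ ∀ p ∈ A, p.2 ≤ frm p.1 x)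

/-- **CRP** (representation of cut sets in a residue class).
Proof.  `a' i = a i` off `I`; on `I` let `a' i` be the smallest number `≥ K2` congruent to `ρ i` modulo `D`; so the set is
contained in `{a' + D t}`, and `k ≤ α x` means `k - α a' ≤ D α t`, i.e. `⌈(k - α a')/D⌉ ≤ α t`.  The new family
`{(α, ⌈(k - α a')/D⌉)}` has disjoint caps: different elements come from different elements of `A` (same first
components). -/
def StCRP : Prop := ∀ (n : ℕ) (I : Finset (Fin n)) (a ρ : Fin n → ℕ) (D K2 : ℕ)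
  (A : Finset ((Fin n → ℤ) × ℤ)), 1 ≤ D →
  (∀ p ∈ A, ∀ q ∈ A, p ≠ q → ∀ t : Fin n → ℕ, (∀ i, i ∉ I → t i = 0) →
      ¬ (frm p.1 t < 0 ∧ frm q.1 t < 0)) →
  IsCut {x : Fin n → ℕ | (∀ i, i ∉ I → x i = a i) ∧ (∀ i ∈ I, K2 ≤ x i ∧ x i % D = ρ i % D) ∧
    ∀ p ∈ A, p.2 ≤ frm p.1 x}

/-- **ASM** (hypotheses GEO, CRP).
Proof.  `NonCrossing` gives `D`.  For each of the finitely many `ρ` with coordinates `< D` it gives `K0` and `E`; it
also holds with `K = max K0 1` (equal values of `clip K` imply equal values of `clip K0` for `K ≥ K0`); GEO gives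
`K2`; let `K'` be the maximum of all `K2`.  For every `x0 ∈ S` with `x0 = a` off `I`, `x0 ≥ K2` on `I`, `x0 ≡ ρ mod D` on `I`, let
`X(x0)` be the set of all `x` with the same three properties (without `x ∈ S`) and the same values of
`clip K (frm α x)`, `α ∈ E`, as `x0`.  It is contained in `S` (`NonCrossing`), it is a cut set (GEO and CRP), it
contains `x0`, and there are only finitely many such sets (they are determined by the cut off values,
integers in `[-K, K]`).  `𝒟` = all these sets, for all `ρ`. -/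
def StASM : Prop := ∀ (n : ℕ) (S : Set (Fin n → ℕ)), NonCrossing S →
  ∀ (I : Finset (Fin n)) (a : Fin n → ℕ), ∃ K' : ℕ, ∃ 𝒟 : Set (Set (Fin n → ℕ)), 𝒟.Finite ∧
    (∀ C ∈ 𝒟, IsCut C ∧ C ⊆ S) ∧ ∀ x ∈ S, (∀ i, i ∉ I → x i = a i) → (∀ i ∈ I, K' ≤ x i) →
      ∃ C ∈ 𝒟, x ∈ C

/-- **IND** (hypothesis ASM).
Proof.  Claim, by induction on `|I|`: for every `a` there is a finite `𝒟` of cut sets contained in `S` which cover
all `x ∈ S` with `x = a` off `I`.  ASM gives `K'` and `𝒟0` for `I, a`.  An `x` not covered by `𝒟0` has `x j = v < K'` for some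
`j ∈ I`: apply the claim to `I \ {j}` and `Function.update a j v` (finitely many pairs `(j, v)`).  `I` = all letters. -/
def StIND : Prop := ∀ (n : ℕ) (S : Set (Fin n → ℕ)), NonCrossing S → FinCut S

/-! ### assembly -/

/-- **NCC**.  Proof.  Immediate: `NonCrossing` is symmetric under `S ↦ Sᶜ`. -/
def StNCC : Prop := ∀ (n : ℕ) (S : Set (Fin n → ℕ)), NonCrossing S → NonCrossing Sᶜ

/-- **FUN** (hypothesis: cut sets are context-free, StSUF of St1).
Proof.  Finite union: `comLang (⋃₀ 𝒟)` is the supremum of the `comLang C` (induction on the finite set `𝒟`,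
`isContextFree_sup` in Helper22/FL/Closure.lean; the empty language is context-free). -/
def StFUN : Prop := (∀ (n : ℕ) (C : Set (Fin n → ℕ)), IsCut C → (comLang C).IsContextFree) →
  ∀ (n : ℕ) (S : Set (Fin n → ℕ)), FinCut S → (comLang S).IsContextFree

end Pool.Agent.Helper31.TW
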