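import Pool.Agent.Helper31.TW.St1
import Pool.Agent.Helper31.TW.St2
import Pool.Agent.Helper31.TW.St3
import Pool.Agent.Helper15.TS.All

set_option autoImplicit false

/-!
Project TW (MP_434a84_lc): the final theorem, from the statements of the modules.
-/

namespace Pool.Agent.Helper31.TW

open Pool.Agent.Helper22.FL Pool.Agent.Helper22.CS Pool.Agent.Helper15.TS

theorem compl_comLang {n : ℕ} (S : Set (Fin n → ℕ)) : (comLang S)ᶜ = comLang Sᶜ := rfl

theorem fin_tfae (hSTR : StSTR) (hTRN : StTRN) (hIND : StIND) (hNCC : StNCC)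
    (hFUN : StFUN) (hSUF : StSUF) (hPKS : StPKS) {n : ℕ} (L : Language (Fin n))
    (hL : L.IsContextFree ∨ IsSemilinearSet (parikh '' L)) :
    List.TFAE [(comm L).IsContextFree ∧ ((comm L)ᶜ).IsContextFree,
      ∀ z u v w : List (Fin n), u ≠ [] → v ≠ [] → w ≠ [] →
        (comm L ⊓ threeStar z u v w).IsContextFree ∧ ((comm L)ᶜ ⊓ threeStar z u v w).IsContextFree,
      FinCut (parikh '' L) ∧ FinCut (parikh '' L)ᶜ,
      NonCrossing (parikh '' L)] := by
  have hS : IsSemilinearSet (parikh '' L) := hL.elim (hPKS n L) id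
  rw [comm_eq_comLang, compl_comLang]
  tfae_have 1 → 2 := by
    rintro ⟨h1, h2⟩ z u v w hu hv hw
    exact ⟨allSLI n _ h1 z u v w hu hv hw, allSLI n _ h2 z u v w hu hv hw⟩
  tfae_have 2 → 4 := by
    intro h
    refine hTRN n _ hS (hSTR n _ ?_) (hSTR n _ ?_)
    · intro z u v w hu hv hw
      exact (h z u v w hu hv hw).1
    · intro z u v w hu hv hw
      exact (h z u v w hu hv hw).2
  tfae_have 4 → 3 := fun h => ⟨hIND n _ h, hIND n _ (hNCC n _ h)⟩
  tfae_have 3 → 1 := fun h => ⟨hFUN hSUF n _ h.1, hFUN hSUF n _ h.2⟩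
  tfae_finish

end Pool.Agent.Helper31.TW
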