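import Mathlib
import Pool.Agent.Helper22.FL.Big

set_option autoImplicit false

/-!
Project TW (MP_434a84_lc): derivations with the set of used states (for the theorem of Parikh with
information on the periods).  A state is a list of symbols, as in `Der` (Helper22/FL/Big.lean).
-/

namespace Pool.Agent.Helper31.TW

open Symbol

variable {T N : Type}

/-- `DU R U α w`: derivation of the word `w` from `α`, `U` is exactly the set of used states -/
inductive DU (R : Set (ContextFreeRule T N)) :
    Set (List (Symbol T N)) → List (Symbol T N) → List T → Prop
  | nil : DU R {[]} [] []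
  | term (t : T) {U : Set (List (Symbol T N))} {α : List (Symbol T N)} {w : List T} :
      DU R U α w → DU R (insert (terminal t :: α) U) (terminal t :: α) (t :: w)
  | nonterm {r : ContextFreeRule T N} {U V : Set (List (Symbol T N))} {α : List (Symbol T N)}
      {u w : List T} : r ∈ R → DU R U r.output u → DU R V α w →
      DU R (insert (nonterminal r.input :: α) (U ∪ V)) (nonterminal r.input :: α) (u ++ w)

/-- contexts: `W` is the set of the states used by the context from `α` to `β` -/
def RU (R : Set (ContextFreeRule T N)) (W : Set (List (Symbol T N))) (α : List (Symbol T N))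
    (u z : List T) (β : List (Symbol T N)) : Prop :=
  ∀ (U : Set (List (Symbol T N))) (x : List T), DU R U β x → DU R (W ∪ U) α (u ++ x ++ z)

/-- `Lp R β k U w`: derivation of `w` from `β` which begins with `k` nonempty loops from `β` to `β` -/
inductive Lp (R : Set (ContextFreeRule T N)) (β : List (Symbol T N)) :
    ℕ → Set (List (Symbol T N)) → List T → Prop
  | zero {U : Set (List (Symbol T N))} {w : List T} : DU R U β w → Lp R β 0 U w
  | succ {k : ℕ} {W U : Set (List (Symbol T N))} {v y w : List T} : RU R W β v y β →
      1 ≤ v.length + y.length → Lp R β k U w → Lp R β (k + 1) (W ∪ U) (v ++ w ++ y)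

/-- the states that can occur in derivations from the nonterminal `X` -/
def Sts (R : Set (ContextFreeRule T N)) (X : N) : Set (List (Symbol T N)) :=
  insert [nonterminal X] (insert [] (⋃ r ∈ R, {α | α <:+ r.output}))

end Pool.Agent.Helper31.TW
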