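import Pool.Agent.Helper31.TW.Defs
import Pool.Agent.Helper31.TW.Par
import Pool.Agent.Helper15.TS.St

set_option autoImplicit false

/-!
PROJECT TW (MP_434a84_lc): statements, part 1 (languages and grammars).

THEOREM.  Let `L` be a context-free language (or any language with a semilinear set `S` of Parikh vectors).
Equivalent: (1) `comm L` and its complement are both context-free; (2) the slices of both by all
languages `z u* v* w*` are context-free; (3) `S` and its complement are finite unions of cut sets;
(4) `S` has non-crossing walls.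

Every module proves ONE of the propositions; the propositions named under `hypotheses` are hypotheses
of the module: `theorem hXXX (h1 : StAAA) (h2 : StBBB) : StXXX`.
-/

namespace Pool.Agent.Helper31.TW

open Symbol Pool.Agent.Helper22.FL Pool.Agent.Helper22.CS Pool.Agent.Helper15.TS

/-! ### derivations -/

/-- **DUB** (basic facts).
Proof.  (1) induction on `Der`; (2) induction on `DU`; (3) induction on `DU`: `Sts R X` contains `[]`, contains
`r.output` for `r ∈ R`, and contains `α` if it contains `a :: α` (a suffix of a suffix is a suffix;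
for `[nonterminal X]` the tail is `[]`); (4) clear from the three constructors; (5) induction on
`DU`: if `β` is the first state take the empty context (`RU R ∅ α [] [] α`), otherwise `β` belongs to one
of the sub-derivations; a context for the sub-derivation is extended: `RU R (insert (terminal t :: α) W)
(terminal t :: α) (t :: u) z β`, etc. (use the constructors of `DU` inside the definition of `RU`);
(6) finite union of finite sets (the suffixes of a list: `List.tails`). -/
def StDUB : Prop := ∀ (T N : Type) (R : Set (ContextFreeRule T N)),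
  (∀ (α : List (Symbol T N)) (w : List T), Der R α w → ∃ U, DU R U α w) ∧
  (∀ U (α : List (Symbol T N)) (w : List T), DU R U α w → Der R α w) ∧
  (∀ (X : N) U (α : List (Symbol T N)) (w : List T), DU R U α w → α ∈ Sts R X → U ⊆ Sts R X) ∧
  (∀ U (α : List (Symbol T N)) (w : List T), DU R U α w → α ∈ U) ∧
  (∀ U (α β : List (Symbol T N)) (w : List T), DU R U α w → β ∈ U → ∃ W U' u x z,
    w = u ++ x ++ z ∧ U = W ∪ U' ∧ RU R W α u z β ∧ DU R U' β x) ∧
  (∀ X : N, R.Finite → (Sts R X).Finite)

/-- **PKD** (going down to a subword of bounded length; compare with `descend` in Helper22/FL/Ogden.lean).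
Proof.  Induction on `DU`, for `α ∈ Sts R X` (closed under tails and outputs).  If `|w| ≤ 2^(m+1)` take the
empty context.  `term`: otherwise the tail has length `≥ 2^(m+1) ≥ 2^m`: induction, and extend the context by
the letter.  `nonterm`: `|u ++ w| > 2^(m+1)`, so `|u| ≥ 2^m` or `|w| ≥ 2^m`: induction for this part, extend the
context (`RU R (insert (..) (W ∪ V)) ..`, by the constructor `nonterm`; the other part of the word goes to
`z` or to `u`).  The equation `U = W ∪ U'` is an equality of unions. -/
def StPKD : Prop := ∀ (T N : Type) (R : Set (ContextFreeRule T N)) (X : N) (m : ℕ)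
  (U : Set (List (Symbol T N))) (α : List (Symbol T N)) (w : List T), DU R U α w → α ∈ Sts R X →
  2 ^ m ≤ w.length → ∃ β ∈ Sts R X, ∃ W U' u x z, w = u ++ x ++ z ∧ U = W ∪ U' ∧ RU R W α u z β ∧
    DU R U' β x ∧ 2 ^ m ≤ x.length ∧ x.length ≤ 2 ^ (m + 1)

/-- **PKL** (many loops).  `R` finite, `I = Sts R X` (finite), `m = k |I| + 1`.
Proof.  Define chains `Ch : List state → (Set state) → state → List T → Prop` by: `nil : DU R U α w → Ch [] U α w`;
`skip : RU R W α u z α' → Ch l U α' w → Ch l (W ∪ U) α (u ++ w ++ z)`;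
`mark : RU R W α u z α' → 1 ≤ |u| + |z| → Ch l U α' w → Ch (α :: l) (W ∪ U) α (u ++ w ++ z)`.
(A) If `DU R U α w`, `α ∈ I` and `2^m ≤ |w|` then there is `l` of length `m`, all its elements in `I`, with
`Ch l U α w`: induction on `DU` (for all `m`).  `m = 0`: `l = []`.  `term`: the tail has length `≥ 2^(m-1)`:
induction with `m - 1`, then `mark`.  `nonterm` (`u ++ w`): if `u = []` or `w = []` use induction with `m` for
the other part and `skip`; otherwise one part has length `≥ 2^(m-1)` and the other is nonempty: induction with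
`m - 1` and `mark`.  (B) `Ch l U α w` implies `DU R U α w`.  (C) If `Ch l U α w` and `β` occurs at least
`k + 1` times in `l` then `∃ W U' u x z, w = u ++ x ++ z ∧ U = W ∪ U' ∧ RU R W α u z β ∧ Lp R β k U' x`: induction
on `Ch` (for all `k`).  `skip` and `mark` with `α ≠ β`: compose contexts.  `mark` with `α = β`: if `k = 0` use (B)
and the empty context; if `k ≥ 1` the rest contains `β` at least `k` times: induction with `k - 1`, and the
composed context from `β` to `β` is a nonempty loop: constructor `Lp.succ`.  (D) By pigeonhole some `β`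
occurs at least `k + 1` times in the list `l` of length `k |I| + 1` with elements in `I`. -/
def StPKL : Prop := ∀ (T N : Type) (R : Set (ContextFreeRule T N)) (X : N), R.Finite →
  ∀ k : ℕ, ∃ m : ℕ, ∀ (U : Set (List (Symbol T N))) (α : List (Symbol T N)) (w : List T),
    DU R U α w → α ∈ Sts R X → 2 ^ m ≤ w.length → ∃ β W U' u x z, w = u ++ x ++ z ∧ U = W ∪ U' ∧
      RU R W α u z β ∧ Lp R β k U' x

/-- **PKR** (removal of a loop without losing states; hypotheses PKD, PKL, DUB).
Proof.  (A) For `Lp R β k U w` and a finite set `Z` of states with `Z ⊆ U`, `|Z| < k`, there are `W, v, y, w', U''` with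
`W ⊆ U`, `RU R W β v y β`, `1 ≤ |v| + |y|`, `DU R U'' β w'`, `Z ⊆ U'' ⊆ U` and `count a w = count a w' + count a v +
count a y` for all `a`.  Induction on `Lp`: `zero` is impossible (`|Z| < 0`).  `succ` (`W1, v1, y1`, rest `U1, w1`,
`k + 1`): if `Z ⊆ U1` remove this loop: `U'' = U1`, `w' = w1` (`Lp R β k U1 w1` gives `DU R U1 β w1`).  Otherwise
`Z' = Z ∩ U1` has `|Z'| < |Z| ≤ k`; induction gives `W, v, y, w1', U1''` for `Z'`; take `w' = v1 ++ w1' ++ y1`,
`U'' = W1 ∪ U1''`; `Z ⊆ W1 ∪ Z'`.  (B) Let `k = |Sts R X| + 1`, `m` from PKL, `p = 2^m`, `B = 2^(m+1)`.  For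
`|w| ≥ p`: PKD gives a part `x` with `p ≤ |x| ≤ B`, PKL gives the loops inside `x`, (A) with `Z = U'` (`U' ⊆ Sts R X`
finite, so `|Z| < k`) gives `U'' = U'`; put everything together with the contexts.  `β ∈ U` by DUB (4).
The lengths: `|v| + |y| ≤ |x| ≤ B` (the length is the sum of the counts, or carry the equation
`|w| = |w'| + |v| + |y|` through (A)). -/
def StPKR : Prop := ∀ (T N : Type) [DecidableEq T] (R : Set (ContextFreeRule T N)) (X : N),
  R.Finite → ∃ p B : ℕ, ∀ (U : Set (List (Symbol T N))) (α : List (Symbol T N)) (w : List T),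
    DU R U α w → α ∈ Sts R X → p ≤ w.length → ∃ β ∈ U, ∃ W ⊆ U, ∃ v y w' : List T,
      RU R W β v y β ∧ 1 ≤ v.length + y.length ∧ v.length + y.length ≤ B ∧ DU R U α w' ∧
      w.length = w'.length + v.length + y.length ∧
      ∀ a : T, w.count a = w'.count a + v.count a + y.count a

/-- **PKI** (insertion of a loop).
Proof.  Induction on `DU R U α w`.  If `β` is the first state `α` of the derivation (this covers `nil`):
apply `RU R W β v y β` to it: `DU R (W ∪ U) α (v ++ w ++ y)`.  Otherwise `β` is in the set of states of a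
sub-derivation: induction there, and the constructor again (`insert a (U1 ∪ W) = insert a U1 ∪ W` etc.). -/
def StPKI : Prop := ∀ (T N : Type) [DecidableEq T] (R : Set (ContextFreeRule T N))
  (U W : Set (List (Symbol T N))) (α β : List (Symbol T N)) (w v y : List T), DU R U α w → β ∈ U →
  RU R W β v y β → ∃ w' : List T, DU R (U ∪ W) α w' ∧
    ∀ a : T, w'.count a = w.count a + v.count a + y.count a

/-- **PKH** (theorem of Parikh, every period comes from a pump; hypotheses DUB, PKR, PKI).
Proof.  `exists_lang`: `L = lang R X`.  `I = Sts R X`, `p, B` from PKR.  For `U ⊆ I` let `E_U` be the (finite) set of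
the `parikh w`, `DU R U [nonterminal X] w`, `|w| < p`, and `F_U` the (finite) set of all `parikh v + parikh y` such
that `RU R W β v y β` for some `β ∈ U`, `W ⊆ U`, `1 ≤ |v| + |y| ≤ B`.  The finite set `R'` consists of
all `(c, F_U)`, `U ⊆ I`, `c ∈ E_U`.  (Vectors of words of bounded length: finitely many.)
`c + ∑ t_p p` is the Parikh vector of a word of `L`: insert the loops one by one (PKI, `U ∪ W = U`; induction on
`∑ t_p`).  Conversely, by strong induction on `|w|`: if `DU R U [nonterminal X] w` (`U ⊆ I` by DUB (3)) then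
`parikh w ∈ lin c F_U` for some `c ∈ E_U`: if `|w| < p` take `c = parikh w`; otherwise PKR and induction
for `w'`.  Pump: for `β ∈ U` and `DU R U [nonterminal X] w0` DUB (5) gives a context
`RU R W' [nonterminal X] u z β` and `DU R U' β x`; iterate the loop `k` times
(`Reach.pow` in Helper22/FL/Ogden.lean is similar) and use DUB (2). -/
def StPKH : Prop := ∀ (n : ℕ) (L : Language (Fin n)), L.IsContextFree →
  ∃ R : Finset ((Fin n → ℕ) × Finset (Fin n → ℕ)),
    (∀ r ∈ R, ∀ p ∈ r.2, ∃ u v x y z : List (Fin n), p = parikh v + parikh y ∧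
      ∀ k : ℕ, u ++ (List.replicate k v).flatten ++ x ++ (List.replicate k y).flatten ++ z ∈ L) ∧
    ∀ x : Fin n → ℕ, x ∈ parikh '' L ↔ ∃ r ∈ R, x ∈ lin r.1 r.2

/-- **PKS** (hypothesis PKH).  Proof.  `lin c P` is a linear set: `c +ᵥ closure P`
(`AddSubmonoid.mem_closure_finset`; the other direction is in the proof of `strep`,
Helper21/TS/PREP.lean), finite union. -/
def StPKS : Prop := ∀ (n : ℕ) (L : Language (Fin n)), L.IsContextFree →
  IsSemilinearSet (parikh '' L)

/-- **STR** (hypothesis PKH; `stinv` of Helper15/TS/PINV.lean may be used).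
Proof.  Words `z, h 0, h 1, h 2` with `parikh z = c`, `parikh (h j) = q j`, `h j ≠ []`.  As in the proof of
`stpmp` (Helper16/TS/PPMP.lean): by INV for `comLang S ⊓ threeStar z (h 0) (h 1) (h 2)` and intersection with
the blocks `0^* 1^* 2^*` the language `Λ = {w ∈ 0^* 1^* 2^* | c + ∑ (count j w) q_j ∈ S}` is context-free.
PKH for `Λ`: for a period `p = parikh v + parikh y` the word with `k = 2` contains `v v` and `y y` and is
sorted, so `v` has only one kind of letter and `y` has only one kind of letter; so `p j = 0` for some `j : Fin 3`.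
`parikh '' Λ = {k | c + ∑ k_j q_j ∈ S}`. -/
def StSTR : Prop := ∀ (n : ℕ) (S : Set (Fin n → ℕ)), TestCF S → Str S

/-! ### sufficiency: cut sets -/

/-- **DCK** (Dickson).
Proof.  `Q = {t | supp t ⊆ I, k ≤ α t for (α, k) ∈ A}`.  To `t ∈ Q` assign the vector
`(t, (α t - k)_((α,k) ∈ A))` of natural numbers.  By Dickson's lemma there is a finite `F ⊆ Q` such that
for every `t ∈ Q` there is `f ∈ F` whose vector is `≤` the vector of `t`; then `t - f ∈ Q0 = {t | supp t ⊆ I,
0 ≤ α t}`.  Conversely `F + Q0 ⊆ Q`.  In the same way there is a finite set `P` of nonzero elements of `Q0` such that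
for every nonzero `t ∈ Q0` there is `p ∈ P` with `p ≤ t`, `t - p ∈ Q0`; by induction on `∑ t_i` every `t ∈ Q0` is
a sum of elements of `P`. -/
def StDCK : Prop := ∀ (n : ℕ) (I : Finset (Fin n)) (A : Finset ((Fin n → ℤ) × ℤ)),
  ∃ F P : Finset (Fin n → ℕ),
    (∀ t : Fin n → ℕ, ((∀ i, i ∉ I → t i = 0) ∧ ∀ p ∈ A, p.2 ≤ frm p.1 t) ↔ t ∈ periodSet F P) ∧
    ∀ t : Fin n → ℕ, ((∀ i, i ∉ I → t i = 0) ∧ ∀ p ∈ A, 0 ≤ frm p.1 t) ↔
      ∃ s : (Fin n → ℕ) → ℕ, t = ∑ p ∈ P, s p • p

/-- **CUT**.
Proof.  Let `M` be the monoid generated by `P` (described by the second hypothesis), `S` a face of `P` with a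
nonzero vector, `x0 = ∑_(p∈S) p`, `I' = letters x0` (nonempty, contained in `I`).  Write `α ∈ A` for `(α, k) ∈ A`.
(0) If `v ∈ M` and `N x0 - v ∈ M` for some `N` then `v` is a sum of elements of `S` (definition of faces, for the sum
of the two representations).  We call the set of these sums `S*`.
CASE 1: some `α ∈ A` has `α x0 = 0` and `α_i ≠ 0` for some `i ∈ I'`.
(1) Let `v` be supported in `I'`, `α v = 0`.  For every `β ∈ A`: `β v ≥ 0`; and `β v = 0` if `β x0 = 0`.
Indeed, let `β v < 0` (so `β ≠ α`).  Let `d` be an integer vector supported in `I'` with `α d < 0`.  Then for large `N`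
and larger `N'` the vector `N' (N v + x0) + d` is `≥ 0`, supported in `I'`, and both `α` and `β` are negative on it:
contradiction.  If `β x0 = 0`, `β v > 0`: the same for `N x0 - v` (`≥ 0` for large `N`, `β < 0`, `α = 0`).
So by (0) every such `v` is in `S*` (`N x0 - v ∈ M` for large `N`: on `I'` `x0 ≥ 1`; `β (N x0 - v) ≥ 0` as `β x0 > 0`
or `β x0 = 0 = β v`).  (2) If `α_c = 0` for some `c ∈ I'`: the unit vector `e_c ∈ S*`, so some element of `S` has
exactly one letter.  Otherwise `A' = {c ∈ I' : α_c > 0}` and `B' = {c ∈ I' : α_c < 0}` are nonempty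
(`α x0 = 0`), and for `a ∈ A'`, `b ∈ B'` the vector `|α_b| e_a + α_a e_b` is in `S*`; it is a sum of elements of
`S` with letters in `{a, b}`, `α = 0` on them, so each nonzero one has exactly the letters `a, b`.
CASE 2: all `α ∈ A` with `α x0 = 0` vanish on `I'`.  (3) Every `v` supported in `I'` with `β v ≥ 0` for all `β ∈ A` is
in `S*` (as before).  If some unit vector `e_c`, `c ∈ I'`, has `β_c ≥ 0` for all `β ∈ A`: one letter.  Otherwise for every
`c ∈ I'` there is exactly one element `(α^c, k^c)` of `A` with `α^c_c < 0` (two would contradict the hypothesis, `t = e_c`).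
Fix `c0 ∈ I'`; `A' = {c ∈ I' : (α^c, k^c) = (α^(c0), k^(c0))}`, `B' = I' \ A'`, nonempty, since otherwise
`α^(c0) x0 < 0`, but `x0 ∈ M`.  Let `a ∈ A'`, `b ∈ B'`, `α = α^a`, `β = α^b`: `α_a < 0`, `β_b < 0`, `α_b ≥ 0`, `β_a ≥ 0`, all
other forms of `A` are `≥ 0` on `e_a, e_b`.  `α_b > 0`: otherwise `α, β < 0` on `e_a + N e_b`, `N` large.  `β_a > 0` in the
same way.  `|α_a| |β_b| ≤ α_b β_a`: otherwise `β_a/|β_b| < |α_a|/α_b` and with natural numbers `s, t > 0`,
`β_a/|β_b| < t/s < |α_a|/α_b` (e.g. `t = β_a α_b + |α_a| |β_b|`, `s = 2 |β_b| α_b`) both forms are negative on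
`s e_a + t e_b`.  So `v = α_b e_a + |α_a| e_b` has `α v = 0`, `β v ≥ 0`, `v ∈ S*`: a sum of elements of `S` with letters in
`{a, b}`.  A nonzero vector `m e_c`, `c ∈ I'`, is not in `M` (then `e_c` would be as excluded); so each nonzero summand
has exactly the letters `a, b`. -/
def StCUT : Prop := ∀ (n : ℕ) (I : Finset (Fin n)) (A : Finset ((Fin n → ℤ) × ℤ))
  (P : Finset (Fin n → ℕ)),
  (∀ p ∈ A, ∀ q ∈ A, p ≠ q → ∀ t : Fin n → ℕ, (∀ i, i ∉ I → t i = 0) →
      ¬ (frm p.1 t < 0 ∧ frm q.1 t < 0)) →
  (∀ t : Fin n → ℕ, ((∀ i, i ∉ I → t i = 0) ∧ ∀ p ∈ A, 0 ≤ frm p.1 t) ↔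
      ∃ s : (Fin n → ℕ) → ℕ, t = ∑ p ∈ P, s p • p) → Cuttable P

/-- **SUF** (hypotheses DCK, CUT).
Proof.  With `F, P` from DCK: `C = periodSet (a + d F) (d P)` (images of the finite sets; `d ≥ 1`, so
`p ↦ d p` is injective).  `P` is cuttable (CUT), hence `d P` is cuttable: a face `S'` of `d P` is `d S` for a face
`S` of `P` (multiply the relation by `d`), and `letters (d p) = letters p`.  Now `isContextFree_of_cuttable`
(Helper22/CS/Suff.lean). -/
def StSUF : Prop := ∀ (n : ℕ) (C : Set (Fin n → ℕ)), IsCut C → (comLang C).IsContextFree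

end Pool.Agent.Helper31.TW
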